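import Pool.Agent.R881.Careful

/-!
MP_165503_lc, Q1: every `A_k`-automaton with `n` states and `k ≥ 2n - 2` has a reset word of length
at most `n - 1`; so `C = 1`, `D = 2` work.
-/

namespace Pool.Agent.Results.MP_165503_lc.LinearReset

universe u v

variable {Q : Type u} {S : Type v}

/-- `act δ q w = q · w`: action of the word `w` on the state `q` of the automaton `δ`. -/
def act (δ : Q → S → Q) (q : Q) (w : List S) : Q := w.foldl δ q

/-- `w` is a reset word: `Q · w` has exactly one element (`Q` will be nonempty). -/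
def IsReset (δ : Q → S → Q) (w : List S) : Prop := (Set.range fun q => act δ q w).ncard = 1

/-- The reset threshold: the minimum length of a reset word (`0` if there is none). -/
noncomputable def rt (δ : Q → S → Q) : ℕ := sInf {l | ∃ w : List S, IsReset δ w ∧ w.length = l}

/-- The list of Bob's first `n` replies. -/
def hist (β : ℕ → List S) (n : ℕ) : List (List S) := (List.range n).map β

/-- The word played after `n` rounds, when Alice uses the strategy `σ` (a letter for each history
of Bob's replies) and Bob's `i`-th reply is `β i`. -/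
def play (σ : List (List S) → S) (β : ℕ → List S) : ℕ → List S
  | 0 => []
  | n + 1 => play σ β n ++ σ (hist β n) :: β n

/-- `A_k`-automaton: Alice has a strategy `σ` such that, whatever words of length at most `k` Bob
replies, at some finite stage (after `N` full rounds, or after Alice's next letter) the word played
so far is a reset word. -/
def IsAk (δ : Q → S → Q) (k : ℕ) : Prop :=
  ∃ σ : List (List S) → S, ∀ β : ℕ → List S, (∀ i, (β i).length ≤ k) →
    ∃ N, IsReset δ (play σ β N) ∨ IsReset δ (play σ β N ++ [σ (hist β N)])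

theorem isReset_iff [Nonempty Q] (δ : Q → S → Q) (w : List S) :
    IsReset δ w ↔ Pool.Agent.R881.Careful.IsReset δ w := by
  unfold IsReset Pool.Agent.R881.Careful.IsReset
  rw [Set.ncard_eq_one]
  constructor
  · rintro ⟨r, hr⟩
    refine ⟨r, fun q => ?_⟩
    have : act δ q w ∈ (Set.range fun q => act δ q w) := ⟨q, rfl⟩
    rw [hr] at this
    exact this
  · rintro ⟨r, hr⟩
    refine ⟨r, ?_⟩
    ext z
    constructor
    · rintro ⟨q, rfl⟩
      exact hr q
    · intro hz
      exact ⟨Classical.arbitrary Q, (hr _).trans (Set.mem_singleton_iff.1 hz).symm⟩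

theorem play_eq (σ : List (List S) → S) (β : ℕ → List S) (n : ℕ) :
    play σ β n = Pool.Agent.R881.Careful.play σ β n := by
  induction n with
  | zero => rfl
  | succ n ih =>
    simp only [play, Pool.Agent.R881.Careful.play, ih]
    rfl

theorem bound (Q : Type u) (S : Type v) [Fintype Q] [Nonempty Q] [Nonempty S]
    (δ : Q → S → Q) (k : ℕ) (hk : 2 * Fintype.card Q ≤ k + 2) (hA : IsAk δ k) :
    (∃ w, IsReset δ w) ∧ rt δ ≤ Fintype.card Q - 1 := by
  have hA' : Pool.Agent.R881.Careful.IsAk δ k := by
    obtain ⟨σ, hσ⟩ := hA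
    refine ⟨σ, fun β hβ => ?_⟩
    obtain ⟨N, hN⟩ := hσ β hβ
    refine ⟨N, ?_⟩
    rw [isReset_iff, isReset_iff, play_eq] at hN
    exact hN
  obtain ⟨w, hw, hl⟩ := Pool.Agent.R881.Careful.main δ k
    (by rw [Nat.card_eq_fintype_card]; exact hk) hA'
  rw [← isReset_iff] at hw
  refine ⟨⟨w, hw⟩, ?_⟩
  rw [Nat.card_eq_fintype_card] at hl
  have : rt δ ≤ w.length := Nat.sInf_le ⟨w, hw, rfl⟩
  omega

/-- Q1 holds with `C = 1` and `D = 2`; more precisely every `A_k`-automaton with `n` states and
`k ≥ 2n - 2` is synchronizing with reset threshold at most `n - 1`. -/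
theorem result :
    (∃ C D : ℝ, 0 < C ∧ 0 < D ∧
      ∀ (Q : Type u) (S : Type v) [Fintype Q] [Nonempty Q] [Fintype S] [Nonempty S]
        (δ : Q → S → Q) (k : ℕ), 1 ≤ k → D * (Fintype.card Q : ℝ) ≤ k → IsAk δ k →
        (rt δ : ℝ) ≤ C * (Fintype.card Q : ℝ)) ∧
    (∀ (Q : Type u) (S : Type v) [Fintype Q] [Nonempty Q] [Fintype S] [Nonempty S]
        (δ : Q → S → Q) (k : ℕ), 2 * Fintype.card Q ≤ k + 2 → IsAk δ k →
        (∃ w, IsReset δ w) ∧ rt δ ≤ Fintype.card Q - 1) := by
  refine ⟨⟨1, 2, one_pos, two_pos, ?_⟩, ?_⟩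
  · intro Q S _ _ _ _ δ k _ hk hA
    have hk' : 2 * Fintype.card Q ≤ k := by exact_mod_cast hk
    have h := (bound Q S δ k (by omega) hA).2
    have h2 : rt δ ≤ Fintype.card Q := h.trans (Nat.sub_le _ _)
    rw [one_mul]
    exact_mod_cast h2
  · intro Q S _ _ _ _ δ k hk hA
    exact bound Q S δ k hk hA

end Pool.Agent.Results.MP_165503_lc.LinearReset
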